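import Pool.Agent.R121.FnPerm

set_option autoImplicit false

/-!
# Permutations avoiding 321 and the arrow pattern (12; 1 → 3)

A `321`-avoiding permutation avoids `(12; 1 → 3)` iff it avoids `3142`, and the permutations avoiding
`321` and `3142` are counted by the recursion `a_{n+2} = 3 a_{n+1} - a_n`.
-/

namespace Pool.Agent.Results.MP_1ce666_co.Arrow321

open Finset Pool.Agent.R121

/-- The entry at the place `i` is a left-to-right maximum. -/
def IsLRMax {n : ℕ} (π : Equiv.Perm (Fin n)) (i : Fin n) : Prop := ∀ j, j < i → π j < π i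

open Classical in
/-- `hatAt π i` is `π̂(π_i)` for `π̂ = θ⁻¹(π)`. The standard cycle form of `π̂` arises by cutting the word
`π` before each left-to-right maximum. So `π̂(π_i) = π_{i+1}`, unless `i` is the last place or `π_{i+1}`
is a left-to-right maximum; then `π̂(π_i)` is the first entry of the current cycle, which is the largest
of the first entries `π_1, …, π_i`. -/
noncomputable def hatAt {n : ℕ} (π : Equiv.Perm (Fin n)) (i : Fin n) : Fin n :=
  if h : i.1 + 1 < n ∧ ∀ h : i.1 + 1 < n, ¬ IsLRMax π ⟨i.1 + 1, h⟩ then π ⟨i.1 + 1, h.1⟩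
  else (Finset.Iic i).sup' ⟨i, Finset.mem_Iic.2 le_rfl⟩ π

/-- `π` contains the arrow pattern `(12; 1 → 3)`: there are values `x₁ = π_i < x₂ = π_j < x₃` with
`i < j` and `π̂(x₁) = x₃`. -/
def ContainsArrow {n : ℕ} (π : Equiv.Perm (Fin n)) : Prop :=
  ∃ i j : Fin n, i < j ∧ π i < π j ∧ π j < hatAt π i

/-- `π` avoids `321`. -/
def Avoids321 {n : ℕ} (π : Equiv.Perm (Fin n)) : Prop :=
  ¬ ∃ a b c : Fin n, a < b ∧ b < c ∧ π c < π b ∧ π b < π a

/-- `π` avoids `3142`. -/
def Avoids3142 {n : ℕ} (π : Equiv.Perm (Fin n)) : Prop :=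
  ¬ ∃ a b c d : Fin n, a < b ∧ b < c ∧ c < d ∧ π b < π d ∧ π d < π a ∧ π a < π c

lemma arrow_iff {n : ℕ} (π : Equiv.Perm (Fin n)) (h3 : Avoids321 π) :
    ¬ ContainsArrow π ↔ Avoids3142 π := by
  classical
  constructor
  · intro hA
    rintro ⟨k, i, i', j, h1, h2, h4, h5, h6, h7⟩
    apply hA
    -- everything up to `i` is smaller than `π i'`
    have hbig : ∀ l, l ≤ i → π l < π i' := by
      intro l hl
      by_contra h8
      have h9 : π i' < π l := by
        apply lt_of_le_of_ne (not_lt.1 h8)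
        intro h
        have := π.injective h
        rw [← this] at hl
        exact absurd (lt_of_lt_of_le h2 hl) (lt_irrefl _)
      exact h3 ⟨l, i', j, lt_of_le_of_lt hl h2, h4, h6.trans h7, h9⟩
    -- the first left-to-right maximum after `i`
    have hex : ∃ x : ℕ, ∃ hx : x < n, i.1 < x ∧ IsLRMax π ⟨x, hx⟩ := by
      obtain ⟨x, hx1, hx2⟩ := Finset.exists_max_image (Finset.Iic i') π ⟨i', Finset.mem_Iic.2 le_rfl⟩
      rw [Finset.mem_Iic] at hx1
      refine ⟨x.1, x.2, ?_, ?_⟩
      · by_contra h8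
        have h9 := hx2 i' (Finset.mem_Iic.2 le_rfl)
        have h10 := hbig x (by rw [Fin.le_def]; omega)
        exact absurd (lt_of_lt_of_le h10 h9) (lt_irrefl _)
      · intro l hl
        have h9 := hx2 l (Finset.mem_Iic.2 (hl.le.trans hx1))
        apply lt_of_le_of_ne h9
        intro h
        have := π.injective h
        rw [this] at hl
        exact absurd hl (lt_irrefl _)
    obtain ⟨hxn, hix, hxm⟩ := Nat.find_spec hex
    have hmin : ∀ y, ∀ hy : y < n, i.1 < y → y < Nat.find hex → ¬ IsLRMax π ⟨y, hy⟩ := by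
      intro y hy h8 h9 h10
      exact Nat.find_min hex h9 ⟨hy, h8, h10⟩
    set x := Nat.find hex with hxdef
    have hxi' : x ≤ i'.1 := by
      by_contra h8
      push Not at h8
      -- the maximum of the first entries up to `i'` is a left-to-right maximum
      obtain ⟨z, hz1, hz2⟩ := Finset.exists_max_image (Finset.Iic i') π ⟨i', Finset.mem_Iic.2 le_rfl⟩
      rw [Finset.mem_Iic] at hz1
      apply hmin z.1 z.2 ?_ (lt_of_le_of_lt hz1 h8)
      · intro l hl
        have h9 := hz2 l (Finset.mem_Iic.2 (hl.le.trans hz1))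
        apply lt_of_le_of_ne h9
        intro h
        have := π.injective h
        rw [this] at hl
        exact absurd hl (lt_irrefl _)
      · by_contra h9
        have h9' := hz2 i' (Finset.mem_Iic.2 le_rfl)
        have h10 := hbig z (by rw [Fin.le_def]; omega)
        exact absurd (lt_of_lt_of_le h10 h9') (lt_irrefl _)
    let i0 : Fin n := ⟨x - 1, by omega⟩
    have hi0 : i ≤ i0 := by rw [Fin.le_def]; change i.1 ≤ x - 1; omega
    have hi0j : i0 < j := by
      rw [Fin.lt_def] at h4 ⊢
      change x - 1 < j.1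
      omega
    have hnot : ∃ l, l < i0 ∧ π i0 < π l := by
      rcases eq_or_lt_of_le hi0 with h8 | h8
      · refine ⟨k, by rw [← h8]; exact h1, ?_⟩
        rw [← h8]
        exact h5.trans h6
      · have h9 := hmin i0.1 i0.2 h8 (by change x - 1 < x; omega)
        unfold IsLRMax at h9
        push Not at h9
        obtain ⟨l, hl1, hl2⟩ := h9
        refine ⟨l, hl1, lt_of_le_of_ne hl2 ?_⟩
        intro h
        have := π.injective h
        rw [← this] at hl1
        exact absurd hl1 (lt_irrefl _)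
    refine ⟨i0, j, hi0j, ?_, ?_⟩
    · obtain ⟨l, hl1, hl2⟩ := hnot
      by_contra h8
      have h9 : π j < π i0 := by
        apply lt_of_le_of_ne (not_lt.1 h8)
        intro h
        have := π.injective h
        rw [this] at hi0j
        exact absurd hi0j (lt_irrefl _)
      exact h3 ⟨l, i0, j, hl1, hi0j, h9, hl2⟩
    · have hx1 : i0.1 + 1 = x := by change x - 1 + 1 = x; omega
      unfold hatAt
      rw [dif_neg]
      · have : π k ≤ (Finset.Iic i0).sup' ⟨i0, Finset.mem_Iic.2 le_rfl⟩ π :=
          Finset.le_sup' π (Finset.mem_Iic.2 (h1.le.trans hi0))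
        exact lt_of_lt_of_le h6 this
      · rintro ⟨h8, h9⟩
        apply h9 h8
        have : (⟨i0.1 + 1, h8⟩ : Fin n) = ⟨x, hxn⟩ := Fin.ext hx1
        rw [this]
        exact hxm
  · rintro h4 ⟨i, j, hij, h5, h6⟩
    unfold hatAt at h6
    split_ifs at h6 with h
    · obtain ⟨h7, h8⟩ := h
      have h9 := h8 h7
      unfold IsLRMax at h9
      push Not at h9
      obtain ⟨k, hk1, hk2⟩ := h9
      have hkne : π ⟨i.1 + 1, h7⟩ ≠ π k := by
        intro h
        have := π.injective h
        rw [this] at hk1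
        exact absurd hk1 (lt_irrefl _)
      have hj : (⟨i.1 + 1, h7⟩ : Fin n) < j := by
        rw [Fin.lt_def] at hij ⊢
        simp only
        have : (⟨i.1 + 1, h7⟩ : Fin n) ≠ j := by
          intro h
          rw [h] at h6
          exact absurd h6 (lt_irrefl _)
        have := Fin.val_ne_of_ne this
        simp only at this
        omega
      exact h3 ⟨k, ⟨i.1 + 1, h7⟩, j, hk1, hj, h6, lt_of_le_of_ne hk2 hkne⟩
    · obtain ⟨k, hk1, hk2⟩ := Finset.exists_mem_eq_sup' (⟨i, Finset.mem_Iic.2 le_rfl⟩ :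
        (Finset.Iic i).Nonempty) π
      rw [hk2] at h6
      rw [Finset.mem_Iic] at hk1
      have hki : k < i := by
        apply lt_of_le_of_ne hk1
        rintro rfl
        exact absurd (h5.trans h6) (lt_irrefl _)
      have h7 : i.1 + 1 < n := by rw [Fin.lt_def] at hij; omega
      have h8 : IsLRMax π ⟨i.1 + 1, h7⟩ := by
        by_contra h9
        exact h ⟨h7, fun _ => h9⟩
      have h9 := h8 k (by rw [Fin.lt_def]; simp only; rw [Fin.lt_def] at hki; omega)
      have hj : (⟨i.1 + 1, h7⟩ : Fin n) < j := by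
        rw [Fin.lt_def] at hij ⊢
        simp only
        have : (⟨i.1 + 1, h7⟩ : Fin n) ≠ j := by
          intro h
          rw [h] at h9
          exact absurd (h6.trans h9) (lt_irrefl _)
        have := Fin.val_ne_of_ne this
        simp only at this
        omega
      exact h4 ⟨k, i, ⟨i.1 + 1, h7⟩, j, hki, by rw [Fin.lt_def]; simp, hj, h5, h6, h9⟩

/-! ### counting the permutations avoiding `321` and `3142` -/

/-- avoidance as a property of functions -/
def Av (n : ℕ) (f : ℕ → ℕ) : Prop :=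
  (∀ a b c, a < b → b < c → c < n → ¬ (f c < f b ∧ f b < f a)) ∧
  (∀ a b c d, a < b → b < c → c < d → d < n → ¬ (f b < f d ∧ f d < f a ∧ f a < f c))

lemma av_iff {n : ℕ} (π : Equiv.Perm (Fin n)) :
    (Avoids321 π ∧ Avoids3142 π) ↔ Av n (fn π) := by
  constructor
  · rintro ⟨h, h'⟩
    constructor
    · intro a b c h1 h2 h3 h4
      apply h
      refine ⟨⟨a, by omega⟩, ⟨b, by omega⟩, ⟨c, h3⟩, h1, h2, ?_, ?_⟩
      · rw [Fin.lt_def, ← fn_fin, ← fn_fin]; exact h4.1
      · rw [Fin.lt_def, ← fn_fin, ← fn_fin]; exact h4.2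
    · intro a b c d h1 h2 h3 h5 h4
      apply h'
      refine ⟨⟨a, by omega⟩, ⟨b, by omega⟩, ⟨c, by omega⟩, ⟨d, h5⟩, h1, h2, h3, ?_, ?_, ?_⟩
      · rw [Fin.lt_def, ← fn_fin, ← fn_fin]; exact h4.1
      · rw [Fin.lt_def, ← fn_fin, ← fn_fin]; exact h4.2.1
      · rw [Fin.lt_def, ← fn_fin, ← fn_fin]; exact h4.2.2
  · rintro ⟨h, h'⟩
    constructor
    · rintro ⟨a, b, c, h1, h2, h3, h4⟩
      rw [Fin.lt_def, ← fn_fin, ← fn_fin] at h3 h4
      exact h a b c h1 h2 c.2 ⟨h3, h4⟩
    · rintro ⟨a, b, c, d, h1, h2, h3, h4, h5, h6⟩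
      rw [Fin.lt_def, ← fn_fin, ← fn_fin] at h4 h5 h6
      exact h' a b c d h1 h2 h3 d.2 ⟨h4, h5, h6⟩

open Classical in
/-- the permutations avoiding `321` and `3142` -/
noncomputable def gd (n : ℕ) : Finset (Equiv.Perm (Fin n)) := univ.filter fun π => Av n (fn π)

lemma mem_gd {n : ℕ} {π : Equiv.Perm (Fin n)} : π ∈ gd n ↔ Av n (fn π) := by
  simp [gd]

/-- `τ ⊕ 1` -/
noncomputable def e1 {n : ℕ} (τ : Equiv.Perm (Fin n)) : Equiv.Perm (Fin (n + 1)) :=
  snocP (Fin.last n) τ

lemma fn_e1 {n : ℕ} (τ : Equiv.Perm (Fin n)) {i : ℕ} (h : i < n) : fn (e1 τ) i = fn τ i := by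
  unfold e1
  rw [fn_snocP_lt _ _ h, if_pos (by have := fn_lt τ h; simpa using this)]

lemma fn_e1' {n : ℕ} (τ : Equiv.Perm (Fin n)) : fn (e1 τ) n = n := by
  unfold e1
  rw [fn_snocP_last]
  simp

lemma av_e1 {n : ℕ} (τ : Equiv.Perm (Fin n)) : Av (n + 1) (fn (e1 τ)) ↔ Av n (fn τ) := by
  constructor
  · rintro ⟨h1, h2⟩
    constructor
    · intro a b c x1 x2 x3 x4
      apply h1 a b c x1 x2 (by omega)
      rw [fn_e1 τ (show a < n by omega), fn_e1 τ (show b < n by omega), fn_e1 τ x3]
      exact x4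
    · intro a b c d x1 x2 x3 x5 x4
      apply h2 a b c d x1 x2 x3 (by omega)
      rw [fn_e1 τ (show a < n by omega), fn_e1 τ (show b < n by omega),
        fn_e1 τ (show c < n by omega), fn_e1 τ x5]
      exact x4
  · rintro ⟨h1, h2⟩
    constructor
    · intro a b c x1 x2 x3 x4
      rw [fn_e1 τ (show a < n by omega), fn_e1 τ (show b < n by omega)] at x4
      rcases Nat.lt_or_ge c n with h | h
      · rw [fn_e1 τ h] at x4
        exact h1 a b c x1 x2 h x4
      · have : c = n := by omega
        rw [this, fn_e1'] at x4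
        have := fn_lt τ (show b < n by omega)
        omega
    · intro a b c d x1 x2 x3 x5 x4
      rw [fn_e1 τ (show a < n by omega), fn_e1 τ (show b < n by omega),
        fn_e1 τ (show c < n by omega)] at x4
      rcases Nat.lt_or_ge d n with h | h
      · rw [fn_e1 τ h] at x4
        exact h2 a b c d x1 x2 x3 h x4
      · have : d = n := by omega
        rw [this, fn_e1'] at x4
        have := fn_lt τ (show a < n by omega)
        omega

/-- append the second largest value -/
noncomputable def e2 {n : ℕ} (τ : Equiv.Perm (Fin (n + 1))) : Equiv.Perm (Fin (n + 2)) :=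
  snocP (Fin.last n).castSucc τ

lemma fn_e2 {n : ℕ} (τ : Equiv.Perm (Fin (n + 1))) {i : ℕ} (h : i < n + 1) :
    fn (e2 τ) i = if fn τ i < n then fn τ i else n + 1 := by
  unfold e2
  rw [fn_snocP_lt _ _ h]
  have := fn_lt τ h
  simp only [Fin.val_castSucc, Fin.val_last]
  split_ifs <;> omega

lemma fn_e2' {n : ℕ} (τ : Equiv.Perm (Fin (n + 1))) : fn (e2 τ) (n + 1) = n := by
  unfold e2
  rw [fn_snocP_last]
  simp

lemma av_e2 {n : ℕ} (τ : Equiv.Perm (Fin (n + 1))) :
    Av (n + 2) (fn (e2 τ)) ↔ Av (n + 1) (fn τ) := by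
  have hlt : ∀ {a b : ℕ}, a < n + 1 → b < n + 1 → (fn (e2 τ) a < fn (e2 τ) b ↔ fn τ a < fn τ b) := by
    intro a b ha hb
    rw [fn_e2 τ ha, fn_e2 τ hb]
    have h1 := fn_lt τ ha
    have h2 := fn_lt τ hb
    split_ifs <;> omega
  constructor
  · rintro ⟨h1, h2⟩
    constructor
    · intro a b c x1 x2 x3 x4
      apply h1 a b c x1 x2 (by omega)
      rwa [hlt (by omega) (by omega), hlt (by omega) (by omega)]
    · intro a b c d x1 x2 x3 x5 x4
      apply h2 a b c d x1 x2 x3 (by omega)
      rwa [hlt (by omega) (by omega), hlt (by omega) (by omega), hlt (by omega) (by omega)]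
  · rintro ⟨h1, h2⟩
    constructor
    · intro a b c x1 x2 x3 x4
      rw [hlt (show b < n + 1 by omega) (show a < n + 1 by omega)] at x4
      rcases Nat.lt_or_ge c (n + 1) with h | h
      · rw [hlt (show c < n + 1 by omega) (show b < n + 1 by omega)] at x4
        exact h1 a b c x1 x2 h x4
      · have : c = n + 1 := by omega
        rw [this, fn_e2', fn_e2 τ (show b < n + 1 by omega)] at x4
        have := fn_lt τ (show a < n + 1 by omega)
        have := fn_lt τ (show b < n + 1 by omega)
        split_ifs at x4 <;> omega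
    · intro a b c d x1 x2 x3 x5 x4
      rw [hlt (show a < n + 1 by omega) (show c < n + 1 by omega)] at x4
      rcases Nat.lt_or_ge d (n + 1) with h | h
      · rw [hlt (show b < n + 1 by omega) (show d < n + 1 by omega),
          hlt (show d < n + 1 by omega) (show a < n + 1 by omega)] at x4
        exact h2 a b c d x1 x2 x3 h x4
      · have : d = n + 1 := by omega
        rw [this, fn_e2', fn_e2 τ (show a < n + 1 by omega)] at x4
        have := fn_lt τ (show a < n + 1 by omega)
        have := fn_lt τ (show c < n + 1 by omega)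
        split_ifs at x4 <;> omega

/-- the place of the largest value -/
noncomputable def mp {n : ℕ} (τ : Equiv.Perm (Fin (n + 1))) : ℕ := fn τ⁻¹ n

lemma mp_spec {n : ℕ} (τ : Equiv.Perm (Fin (n + 1))) : fn τ (mp τ) = n :=
  (fn_inv τ (by omega)).1 rfl

lemma mp_lt {n : ℕ} (τ : Equiv.Perm (Fin (n + 1))) : mp τ < n + 1 := fn_lt _ (by omega)

/-- insert a new largest value after the largest value -/
noncomputable def e3 {n : ℕ} (τ : Equiv.Perm (Fin (n + 1))) : Equiv.Perm (Fin (n + 2)) :=
  insP ⟨mp τ + 1, by have := mp_lt τ; omega⟩ τ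

lemma fn_e3 {n : ℕ} (τ : Equiv.Perm (Fin (n + 1))) {i : ℕ} (h : i < n + 2) :
    fn (e3 τ) i = if i ≤ mp τ then fn τ i else if i = mp τ + 1 then n + 1 else fn τ (i - 1) := by
  unfold e3
  rw [fn_insP _ _ h]
  simp only
  split_ifs <;> first | rfl | omega

lemma av_e3 {n : ℕ} (τ : Equiv.Perm (Fin (n + 1))) (h : Av (n + 1) (fn τ)) :
    Av (n + 2) (fn (e3 τ)) := by
  have hm := mp_lt τ
  have hs := mp_spec τ
  obtain ⟨h1, h2⟩ := h
  -- the place in the old permutation
  have key : ∀ i, i < n + 2 → ∃ i', i' < n + 1 ∧ (i ≤ mp τ → i' = i) ∧ (mp τ < i → i' = i - 1) ∧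
      (i ≠ mp τ + 1 → fn (e3 τ) i = fn τ i') ∧ (i = mp τ + 1 → fn (e3 τ) i = n + 1 ∧ i' = mp τ) ∧
      fn τ i' < n + 1 ∧ (i' ≠ mp τ → fn τ i' < n) := by
    intro i hi
    by_cases h3 : i ≤ mp τ
    · refine ⟨i, by omega, fun _ => rfl, by omega, ?_, by omega, fn_lt τ (by omega), ?_⟩
      · intro _
        rw [fn_e3 τ hi, if_pos h3]
      · intro h4
        have h5 := fn_lt τ (show i < n + 1 by omega)
        have h6 : fn τ i ≠ n := fun h => h4 (fn_inj τ i (by omega) (mp τ) hm (by omega))
        omega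
    · refine ⟨i - 1, by omega, by omega, fun _ => rfl, ?_, ?_, fn_lt τ (by omega), ?_⟩
      · intro h4
        rw [fn_e3 τ hi, if_neg h3, if_neg h4]
      · intro h4
        refine ⟨?_, by omega⟩
        rw [fn_e3 τ hi, if_neg h3, if_pos h4]
      · intro h4
        have h5 := fn_lt τ (show i - 1 < n + 1 by omega)
        have h6 : fn τ (i - 1) ≠ n := fun h => h4 (fn_inj τ (i - 1) (by omega) (mp τ) hm (by omega))
        omega
  constructor
  · intro a b c x1 x2 x3 x4
    obtain ⟨a', a1, a2, a3, a4, a5, a6, a7⟩ := key a (by omega)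
    obtain ⟨b', b1, b2, b3, b4, b5, b6, b7⟩ := key b (by omega)
    obtain ⟨c', c1, c2, c3, c4, c5, c6, c7⟩ := key c (by omega)
    have hb : b ≠ mp τ + 1 := by
      intro h
      have := b5 h
      have : fn (e3 τ) a < n + 2 := fn_lt _ (by omega)
      omega
    have hc : c ≠ mp τ + 1 := by
      intro h
      have := c5 h
      have : fn (e3 τ) b < n + 2 := fn_lt _ (by omega)
      omega
    rw [b4 hb, c4 hc] at x4
    by_cases ha : a = mp τ + 1
    · have ha' := a5 ha
      apply h1 a' b' c' (by omega) (by omega) c1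
      rw [ha'.2, hs]
      have : b' ≠ mp τ := by omega
      exact ⟨x4.1, by omega⟩
    · rw [a4 ha] at x4
      have hab : a' < b' := by omega
      have hbc : b' < c' := by omega
      exact h1 a' b' c' hab hbc c1 x4
  · intro a b c d x1 x2 x3 x5 x4
    obtain ⟨a', a1, a2, a3, a4, a5, a6, a7⟩ := key a (by omega)
    obtain ⟨b', b1, b2, b3, b4, b5, b6, b7⟩ := key b (by omega)
    obtain ⟨c', c1, c2, c3, c4, c5, c6, c7⟩ := key c (by omega)
    obtain ⟨d', d1, d2, d3, d4, d5, d6, d7⟩ := key d (by omega)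
    have ha : a ≠ mp τ + 1 := by
      intro h
      have := a5 h
      have : fn (e3 τ) c < n + 2 := fn_lt _ (by omega)
      omega
    have hd : d ≠ mp τ + 1 := by
      intro h
      have := d5 h
      have : fn (e3 τ) a < n + 2 := fn_lt _ (by omega)
      omega
    have hb : b ≠ mp τ + 1 := by
      intro h
      have := b5 h
      have : fn (e3 τ) d < n + 2 := fn_lt _ (by omega)
      omega
    rw [a4 ha, b4 hb, d4 hd] at x4
    by_cases hc : c = mp τ + 1
    · have hc' := c5 hc
      have hab : a' < b' := by omega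
      have ha2 : a' ≠ mp τ := by omega
      have := a7 ha2
      have hbc : b' < c' ∨ b' = c' := by omega
      rcases hbc with hbc | hbc
      · exact h2 a' b' c' d' hab hbc (by omega) d1 ⟨x4.1, x4.2.1, by rw [hc'.2, hs]; omega⟩
      · rw [hbc, hc'.2, hs] at x4
        omega
    · rw [c4 hc] at x4
      have hab : a' < b' := by omega
      have hbc : b' < c' := by omega
      have hcd : c' < d' := by omega
      exact h2 a' b' c' d' hab hbc hcd d1 x4

lemma av_del {n : ℕ} (p : Fin (n + 1)) (σ : Equiv.Perm (Fin n)) (h : Av (n + 1) (fn (insP p σ))) :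
    Av n (fn σ) := by
  obtain ⟨h1, h2⟩ := h
  have key : ∀ i, i < n → ∃ i', i' < n + 1 ∧ fn (insP p σ) i' = fn σ i ∧
      (i < p.1 → i' = i) ∧ (p.1 ≤ i → i' = i + 1) := by
    intro i hi
    by_cases h3 : i < p.1
    · exact ⟨i, by omega, by rw [fn_insP _ _ (by omega), if_pos h3], fun _ => rfl, by omega⟩
    · refine ⟨i + 1, by omega, ?_, by omega, fun _ => rfl⟩
      rw [fn_insP _ _ (by omega), if_neg (by omega), if_neg (by omega)]
      rfl
  constructor
  · intro a b c x1 x2 x3 x4
    obtain ⟨a', a1, a2, a3, a4⟩ := key a (by omega)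
    obtain ⟨b', b1, b2, b3, b4⟩ := key b (by omega)
    obtain ⟨c', c1, c2, c3, c4⟩ := key c (by omega)
    apply h1 a' b' c' (by omega) (by omega) c1
    rw [a2, b2, c2]
    exact x4
  · intro a b c d x1 x2 x3 x5 x4
    obtain ⟨a', a1, a2, a3, a4⟩ := key a (by omega)
    obtain ⟨b', b1, b2, b3, b4⟩ := key b (by omega)
    obtain ⟨c', c1, c2, c3, c4⟩ := key c (by omega)
    obtain ⟨d', d1, d2, d3, d4⟩ := key d (by omega)
    apply h2 a' b' c' d' (by omega) (by omega) (by omega) d1
    rw [a2, b2, c2, d2]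
    exact x4

/-- the classification by the last value -/
lemma gd_eq (n : ℕ) : gd (n + 2) = (gd (n + 1)).image e1 ∪ (gd (n + 1)).image e2 ∪
    ((gd (n + 1)) \ (gd n).image e1).image e3 := by
  ext π
  simp only [mem_union, mem_image, mem_gd, mem_sdiff]
  constructor
  · intro hπ
    have hlast := fn_lt π (show n + 1 < n + 2 by omega)
    by_cases c1 : fn π (n + 1) = n + 1
    · left; left
      obtain ⟨v, τ, rfl⟩ := exists_snoc π
      have hv : v = Fin.last (n + 1) := Fin.ext (fn_last_eq v τ c1)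
      subst hv
      exact ⟨τ, (av_e1 τ).1 hπ, rfl⟩
    by_cases c2 : fn π (n + 1) = n
    · left; right
      obtain ⟨v, τ, rfl⟩ := exists_snoc π
      have hv : v = (Fin.last n).castSucc := Fin.ext (fn_last_eq v τ c2)
      subst hv
      exact ⟨τ, (av_e2 τ).1 hπ, rfl⟩
    right
    obtain ⟨h1, h2⟩ := hπ
    obtain ⟨q, hq, hqn⟩ := fn_surj π n (by omega)
    obtain ⟨p, hp, hpn⟩ := fn_surj π (n + 1) (by omega)
    have hpl : p ≠ n + 1 := by rintro rfl; exact c1 hpn
    have hql : q ≠ n + 1 := by rintro rfl; exact c2 hqn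
    have hqp : q < p := by
      by_contra h
      have : p ≠ q := by rintro rfl; omega
      exact h1 p q (n + 1) (by omega) (by omega) (by omega) ⟨by omega, by omega⟩
    have hadj : p = q + 1 := by
      by_contra h
      have hr := fn_lt π (show q + 1 < n + 2 by omega)
      have hr1 : fn π (q + 1) ≠ n + 1 := by
        intro h'
        have := fn_inj π (q + 1) (by omega) p (by omega) (by omega)
        omega
      have hr2 : fn π (q + 1) ≠ n := by
        intro h'
        have := fn_inj π (q + 1) (by omega) q (by omega) (by omega)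
        omega
      have hr3 : fn π (q + 1) ≠ fn π (n + 1) := by
        intro h'
        have := fn_inj π (q + 1) (by omega) (n + 1) (by omega) (by omega)
        omega
      rcases Nat.lt_or_ge (fn π (q + 1)) (fn π (n + 1)) with h3 | h3
      · exact h2 q (q + 1) p (n + 1) (by omega) (by omega) (by omega) (by omega)
          ⟨h3, by omega, by omega⟩
      · exact h1 q (q + 1) (n + 1) (by omega) (by omega) (by omega) ⟨by omega, by omega⟩
    obtain ⟨p', σ, rfl⟩ := exists_ins π
    have hp' : p'.1 = p := by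
      have h3 := fn_insP p' σ (show p'.1 < n + 2 from p'.2)
      rw [if_neg (lt_irrefl _), if_pos rfl] at h3
      exact fn_inj (insP p' σ) _ p'.2 _ hp (h3.trans hpn.symm)
    have hmp : mp σ = q := by
      rw [mp, fn_inv σ (by omega)]
      rw [fn_insP _ _ hq, if_pos (by omega)] at hqn
      exact hqn
    refine ⟨σ, ⟨av_del p' σ ⟨h1, h2⟩, ?_⟩, ?_⟩
    · rintro ⟨τ, _, h3⟩
      have h4 := fn_e1' τ
      rw [h3] at h4
      have h5 : mp σ = n := by
        rw [mp, fn_inv σ (by omega)]
        exact h4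
      omega
    · unfold e3
      congr 1
      apply Fin.ext
      simp only
      omega
  · rintro ((⟨τ, h1, rfl⟩ | ⟨τ, h1, rfl⟩) | ⟨τ, ⟨h1, _⟩, rfl⟩)
    · exact (av_e1 τ).2 h1
    · exact (av_e2 τ).2 h1
    · exact av_e3 τ h1

lemma e1_inj (n : ℕ) : Function.Injective (e1 (n := n)) := by
  intro τ τ' h
  have := (snocP_bijective n).1 (a₁ := (Fin.last n, τ)) (a₂ := (Fin.last n, τ')) h
  simpa using this

lemma e2_inj (n : ℕ) : Function.Injective (e2 (n := n)) := by
  intro τ τ' h
  have := (snocP_bijective (n + 1)).1 (a₁ := ((Fin.last n).castSucc, τ))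
    (a₂ := ((Fin.last n).castSucc, τ')) h
  simpa using this

lemma mp_e3 {n : ℕ} (τ : Equiv.Perm (Fin (n + 1))) : mp (e3 τ) = mp τ + 1 := by
  have := mp_lt τ
  rw [mp, fn_inv _ (by omega), fn_e3 τ (by omega), if_neg (by omega), if_pos rfl]

lemma e3_inj (n : ℕ) : Function.Injective (e3 (n := n)) := by
  intro τ τ' h
  have h1 : mp τ = mp τ' := by
    have h2 := mp_e3 τ
    have h3 := mp_e3 τ'
    rw [h] at h2
    omega
  have := mp_lt τ
  apply ext_of_fn
  intro i hi
  by_cases h2 : i ≤ mp τ
  · have h3 := fn_e3 τ (show i < n + 2 by omega)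
    have h4 := fn_e3 τ' (show i < n + 2 by omega)
    rw [if_pos h2] at h3
    rw [if_pos (by omega), ← h] at h4
    omega
  · have h3 := fn_e3 τ (show i + 1 < n + 2 by omega)
    have h4 := fn_e3 τ' (show i + 1 < n + 2 by omega)
    rw [if_neg (by omega), if_neg (by omega)] at h3
    rw [if_neg (by omega), if_neg (by omega), ← h] at h4
    simp only [Nat.add_sub_cancel] at h3 h4
    omega

lemma card_gd (n : ℕ) : (gd (n + 2)).card + (gd n).card = 3 * (gd (n + 1)).card := by
  have hsub : (gd n).image e1 ⊆ gd (n + 1) := by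
    intro π hπ
    rw [mem_image] at hπ
    obtain ⟨τ, h1, rfl⟩ := hπ
    rw [mem_gd] at h1 ⊢
    exact (av_e1 τ).2 h1
  have hc1 : ((gd (n + 1)) \ (gd n).image e1).card = (gd (n + 1)).card - (gd n).card := by
    rw [card_sdiff_of_subset hsub, card_image_of_injective _ (e1_inj n)]
  have hle : (gd n).card ≤ (gd (n + 1)).card := by
    rw [← card_image_of_injective _ (e1_inj n)]
    exact card_le_card hsub
  rw [gd_eq, card_union_of_disjoint, card_union_of_disjoint, card_image_of_injective _ (e1_inj _),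
    card_image_of_injective _ (e2_inj _), card_image_of_injective _ (e3_inj _), hc1]
  · omega
  · rw [disjoint_left]
    intro π h1 h2
    simp only [mem_image] at h1 h2
    obtain ⟨τ, _, h3⟩ := h1
    obtain ⟨σ, _, h4⟩ := h2
    have h5 := fn_e1' τ
    have h6 := fn_e2' σ
    rw [h3] at h5
    rw [h4] at h6
    omega
  · rw [disjoint_left]
    intro π h1 h2
    simp only [mem_union, mem_image, mem_sdiff] at h1 h2
    obtain ⟨τ, ⟨hτ1, hτ2⟩, h2⟩ := h2
    -- the last value of `e3 τ` is the last value of `τ`, which is not the largest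
    have hm := mp_lt τ
    have hmn : mp τ ≠ n := by
      intro h3
      apply hτ2
      obtain ⟨v, σ, hσ⟩ := exists_snoc τ
      have hv : v = Fin.last n := by
        apply Fin.ext
        apply fn_last_eq v σ
        rw [hσ]
        have := mp_spec τ
        rw [h3] at this
        rw [this]
        simp
      subst hv
      refine ⟨σ, ?_, hσ⟩
      rw [mem_gd, ← av_e1]
      unfold e1
      rw [hσ]
      exact mem_gd.1 hτ1
    have h7 := fn_e3 τ (show n + 1 < n + 2 by omega)
    rw [if_neg (by omega), if_neg (by omega), h2, Nat.add_sub_cancel] at h7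
    have h8 := fn_lt τ (show n < n + 1 by omega)
    have h9 : fn τ n ≠ n := by
      intro h
      apply hmn
      rw [mp, fn_inv τ (by omega)]
      exact h
    rcases h1 with ⟨σ, _, h3⟩ | ⟨σ, _, h3⟩
    · have := fn_e1' σ
      rw [h3] at this
      omega
    · have := fn_e2' σ
      rw [h3] at this
      omega

lemma card_small {n : ℕ} (hn : n ≤ 1) : (gd n).card = n.factorial := by
  have : gd n = univ := by
    ext π
    simp only [mem_gd, mem_univ, iff_true]
    constructor
    · intro a b c h1 h2 h3; omega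
    · intro a b c d h1 h2 h3 h4; omega
  rw [this, card_univ, Fintype.card_perm, Fintype.card_fin]

lemma count (n : ℕ) : (gd (n + 1)).card = Nat.fib (2 * n + 1) ∧
    (gd (n + 2)).card = Nat.fib (2 * n + 3) := by
  induction n with
  | zero =>
    have h1 := card_gd 0
    have h0 : (gd 0).card = 1 := by rw [card_small (by norm_num)]; rfl
    have h2 : (gd 1).card = 1 := by rw [card_small (by norm_num)]; rfl
    change (gd 2).card + (gd 0).card = 3 * (gd 1).card at h1
    change (gd 1).card = Nat.fib 1 ∧ (gd 2).card = Nat.fib 3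
    rw [h0, h2] at h1
    refine ⟨by rw [h2]; rfl, ?_⟩
    have : Nat.fib 3 = 2 := rfl
    omega
  | succ n ih =>
    have h1 := card_gd (n + 1)
    obtain ⟨h2, h3⟩ := ih
    have e1 : n + 1 + 1 = n + 2 := rfl
    have e2 : 2 * (n + 1) + 1 = 2 * n + 3 := by ring
    have e3 : 2 * (n + 1) + 3 = 2 * n + 5 := by ring
    rw [e1, h2, h3] at h1
    rw [e2, e3]
    refine ⟨h3, ?_⟩
    have f1 : Nat.fib (2 * n + 5) = Nat.fib (2 * n + 3) + Nat.fib (2 * n + 4) := Nat.fib_add_two
    have f2 : Nat.fib (2 * n + 4) = Nat.fib (2 * n + 2) + Nat.fib (2 * n + 3) := Nat.fib_add_two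
    have f3 : Nat.fib (2 * n + 3) = Nat.fib (2 * n + 1) + Nat.fib (2 * n + 2) := Nat.fib_add_two
    omega

/-- For every `n ≥ 2` (indeed `n ≥ 1`) the number of the permutations of length `n` avoiding `321` and
the arrow pattern `(12; 1 → 3)` is the Fibonacci number `F_{2n-1}`. -/
theorem result (n : ℕ) (hn : 1 ≤ n) :
    Nat.card {π : Equiv.Perm (Fin n) // Avoids321 π ∧ ¬ ContainsArrow π} = Nat.fib (2 * n - 1) := by
  obtain ⟨m, rfl⟩ : ∃ m, n = m + 1 := ⟨n - 1, by omega⟩
  have h1 : 2 * (m + 1) - 1 = 2 * m + 1 := by omega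
  rw [h1, ← (count m).1, ← Fintype.card_coe, ← Nat.card_eq_fintype_card]
  apply Nat.card_congr
  apply Equiv.subtypeEquivRight
  intro π
  rw [mem_gd, ← av_iff]
  constructor
  · rintro ⟨h2, h3⟩
    exact ⟨h2, (arrow_iff π h2).1 h3⟩
  · rintro ⟨h2, h3⟩
    exact ⟨h2, (arrow_iff π h2).2 h3⟩

end Pool.Agent.Results.MP_1ce666_co.Arrow321
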