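import Pool.Agent.R804.Arrow.Block

/-!
# Permutations avoiding `321` and the arrow pattern `(12; 1 → 3)`

Their number is the Fibonacci number `F_{2n-1}`.
-/

set_option autoImplicit false

namespace Pool.Agent.Results.MP_1ce666_co.FibonacciCount

open Pool.Agent.R804.Arrow

/-- The permutation `π` is `θ(σ)` for exactly one `σ`, and for every `n ≥ 1` the number of
permutations of `[n]` avoiding both `321` and `(12; 1 → 3)` is `F_{2n-1}`. -/
theorem result :
    (∀ (n : ℕ) (π : Equiv.Perm (Fin n)), ∃! σ, IsTheta σ π) ∧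
    ∀ n : ℕ, 1 ≤ n →
      Nat.card {π : Equiv.Perm (Fin n) // ¬ Has321 π ∧ ¬ HasArrow π} = Nat.fib (2 * n - 1) := by
  refine ⟨fun n π => existsUnique_theta π, ?_⟩
  intro n hn
  obtain ⟨m, rfl⟩ : ∃ m, n = m + 1 := ⟨n - 1, by omega⟩
  have h1 : Nat.card {π : Equiv.Perm (Fin (m + 1)) // ¬ Has321 π ∧ ¬ HasArrow π}
      = (G (m + 1)).card := by
    classical
    rw [Nat.card_eq_fintype_card, Fintype.card_subtype]
    congr 1
    ext π
    rw [mem_G, ← good_iff]
    simp
  rw [h1, (card_G m).1]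
  congr 1

end Pool.Agent.Results.MP_1ce666_co.FibonacciCount
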